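import Mathlib

/-!
# A bound for the sum of `log (1 + 1 / p) / log p` over the odd primes
-/

set_option autoImplicit false

namespace Pool.Agent.Q58.WCS2

open Real

/-- The first Chebyshev function. -/
noncomputable def th (n : ℕ) : ℝ := ∑ p ∈ (Finset.range (n + 1)).filter Nat.Prime, Real.log p

lemma th_le (n : ℕ) : th n ≤ n * Real.log 4 := by
  have h1 : th n = Real.log (primorial n) := by
    unfold th primorial
    push_cast
    rw [Real.log_prod]
    intro p hp
    rw [Finset.mem_filter] at hp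
    exact_mod_cast hp.2.ne_zero
  rw [h1]
  have h2 : (primorial n : ℝ) ≤ 4 ^ n := by exact_mod_cast primorial_le_four_pow n
  calc Real.log (primorial n) ≤ Real.log (4 ^ n) :=
        Real.log_le_log (by exact_mod_cast primorial_pos n) h2
    _ = n * Real.log 4 := by rw [Real.log_pow]

lemma th_succ (n : ℕ) : th (n + 1) = th n + if (n + 1).Prime then Real.log ((n + 1 : ℕ) : ℝ) else 0 := by
  unfold th
  rw [Finset.range_add_one (n := n + 1), Finset.filter_insert]
  split_ifs with h
  · rw [Finset.sum_insert (by simp), add_comm]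
  · rw [add_zero]

/-- The weight. -/
noncomputable def g (n : ℕ) : ℝ := 1 / (n * (Real.log n) ^ 2)

lemma g_succ {n : ℕ} (hn : 2 ≤ n) : g (n + 1) ≤ g n := by
  unfold g
  have h1 : (2 : ℝ) ≤ n := by exact_mod_cast hn
  have h2 : 0 < Real.log n := Real.log_pos (by linarith)
  have h3 : Real.log n ≤ Real.log ((n + 1 : ℕ) : ℝ) := by
    apply Real.log_le_log (by linarith)
    push_cast
    linarith
  apply one_div_le_one_div_of_le
  · positivity
  · have h4 : (n : ℝ) ≤ ((n + 1 : ℕ) : ℝ) := by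
      push_cast
      linarith
    gcongr

lemma g_nonneg (n : ℕ) : 0 ≤ g n := by
  unfold g
  positivity

lemma g_tel {n : ℕ} (hn : 2 ≤ n) :
    g (n + 1) ≤ 1 / Real.log n - 1 / Real.log ((n + 1 : ℕ) : ℝ) := by
  have h1 : (2 : ℝ) ≤ n := by exact_mod_cast hn
  have h2 : 0 < Real.log n := Real.log_pos (by linarith)
  have h3 : Real.log n ≤ Real.log ((n + 1 : ℕ) : ℝ) := by
    apply Real.log_le_log (by linarith)
    push_cast
    linarith
  have h4 : 0 < Real.log ((n + 1 : ℕ) : ℝ) := by linarith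
  have h5 : 1 / ((n + 1 : ℕ) : ℝ) ≤ Real.log ((n + 1 : ℕ) : ℝ) - Real.log n := by
    have h6 : Real.log n - Real.log ((n + 1 : ℕ) : ℝ) ≤ (n : ℝ) / ((n + 1 : ℕ) : ℝ) - 1 := by
      rw [← Real.log_div (by positivity) (by positivity)]
      exact Real.log_le_sub_one_of_pos (by positivity)
    have h7 : (n : ℝ) / ((n + 1 : ℕ) : ℝ) - 1 = - (1 / ((n + 1 : ℕ) : ℝ)) := by
      push_cast
      field_simp
      ring
    linarith
  rw [div_sub_div _ _ h2.ne' h4.ne', g]
  have h8 : Real.log n * Real.log ((n + 1 : ℕ) : ℝ) ≤ (Real.log ((n + 1 : ℕ) : ℝ)) ^ 2 := by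
    rw [pow_two]
    gcongr
  calc 1 / (((n + 1 : ℕ) : ℝ) * (Real.log ((n + 1 : ℕ) : ℝ)) ^ 2)
      = (1 / ((n + 1 : ℕ) : ℝ)) / (Real.log ((n + 1 : ℕ) : ℝ)) ^ 2 := by
        rw [div_div]
    _ ≤ (Real.log ((n + 1 : ℕ) : ℝ) - Real.log n) / (Real.log ((n + 1 : ℕ) : ℝ)) ^ 2 := by
        gcongr
    _ ≤ (Real.log ((n + 1 : ℕ) : ℝ) - Real.log n) / (Real.log n * Real.log ((n + 1 : ℕ) : ℝ)) := by
        have : 0 ≤ Real.log ((n + 1 : ℕ) : ℝ) - Real.log n := by linarith
        gcongr
    _ = _ := by ring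

/-- The sum of `1 / (p log p)`. -/
noncomputable def tl (Y N : ℕ) : ℝ :=
  ∑ p ∈ (Finset.Ioc Y N).filter Nat.Prime, 1 / ((p : ℝ) * Real.log p)

lemma tl_succ {Y N : ℕ} (h : Y ≤ N) : tl Y (N + 1) = tl Y N +
    if (N + 1).Prime then 1 / (((N + 1 : ℕ) : ℝ) * Real.log ((N + 1 : ℕ) : ℝ)) else 0 := by
  unfold tl
  have h1 : Finset.Ioc Y (N + 1) = insert (N + 1) (Finset.Ioc Y N) := by
    ext x
    simp only [Finset.mem_Ioc, Finset.mem_insert]
    omega
  rw [h1, Finset.filter_insert]
  split_ifs with h2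
  · rw [Finset.sum_insert (by simp), add_comm]
  · rw [add_zero]

lemma tl_le' {Y : ℕ} (hY : 2 ≤ Y) : ∀ N, Y ≤ N → tl Y N ≤
    Real.log 4 * (1 / Real.log Y - 1 / Real.log N) + (Y * Real.log 4 - th Y) * g Y -
      (N * Real.log 4 - th N) * g N := by
  intro N hN
  induction N, hN using Nat.le_induction with
  | base => simp [tl]
  | succ N hN ih =>
    rw [tl_succ hN]
    have h1 := g_tel (n := N) (by omega)
    have h2 := g_succ (n := N) (by omega)
    have h3 := th_le N
    have h4 : 0 < Real.log 4 := Real.log_pos (by norm_num)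
    have h5 : (if (N + 1).Prime then 1 / (((N + 1 : ℕ) : ℝ) * Real.log ((N + 1 : ℕ) : ℝ)) else 0) =
        (th (N + 1) - th N) * g (N + 1) := by
      rw [th_succ]
      split_ifs with h6
      · unfold g
        have h7 : 0 < Real.log ((N + 1 : ℕ) : ℝ) := Real.log_pos (by
          have : (2 : ℝ) ≤ N := by exact_mod_cast hY.trans hN
          push_cast
          linarith)
        field_simp
        ring
      · ring
    rw [h5]
    have h6 : (N * Real.log 4 - th N) * g (N + 1) ≤ (N * Real.log 4 - th N) * g N :=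
      mul_le_mul_of_nonneg_left h2 (by linarith)
    have h7 : Real.log 4 * g (N + 1) ≤
        Real.log 4 * (1 / Real.log N - 1 / Real.log ((N + 1 : ℕ) : ℝ)) :=
      mul_le_mul_of_nonneg_left h1 h4.le
    push_cast at *
    linarith

theorem tl_le {Y : ℕ} (hY : 2 ≤ Y) (N : ℕ) : tl Y N ≤
    Real.log 4 * (1 / Real.log Y + 1 / (Real.log Y) ^ 2) := by
  have hY' : (2 : ℝ) ≤ Y := by exact_mod_cast hY
  have h0 : 0 < Real.log Y := Real.log_pos (by linarith)
  have h4 : 0 < Real.log 4 := Real.log_pos (by norm_num)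
  rcases Nat.lt_or_ge N Y with h | h
  · have : tl Y N = 0 := by
      unfold tl
      rw [Finset.Ioc_eq_empty (by omega)]
      simp
    rw [this]
    positivity
  · have h1 := tl_le' hY N h
    have h2 : 0 ≤ (N * Real.log 4 - th N) * g N :=
      mul_nonneg (by linarith [th_le N]) (g_nonneg N)
    have h3 : 0 ≤ th Y := by
      unfold th
      apply Finset.sum_nonneg
      intro p _
      exact Real.log_natCast_nonneg p
    have h5 : (Y * Real.log 4 - th Y) * g Y ≤ (Y * Real.log 4) * g Y :=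
      mul_le_mul_of_nonneg_right (by linarith) (g_nonneg Y)
    have h6 : (Y * Real.log 4) * g Y = Real.log 4 * (1 / (Real.log Y) ^ 2) := by
      unfold g
      field_simp
    have h7 : 0 ≤ 1 / Real.log N := by
      have := Real.log_natCast_nonneg N
      positivity
    have h8 : Real.log 4 * (1 / Real.log Y - 1 / Real.log N) ≤ Real.log 4 * (1 / Real.log Y) :=
      mul_le_mul_of_nonneg_left (by linarith) h4.le
    calc tl Y N ≤ Real.log 4 * (1 / Real.log Y) + Real.log 4 * (1 / (Real.log Y) ^ 2) := by linarith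
      _ = _ := by ring

/-! ### Numerics -/

/-- A test passed by all primes. -/
def pass (n : ℕ) : Bool :=
  [2, 3, 5, 7, 11, 13, 17, 19, 23, 29, 31].all (fun d => !(Nat.beq (n % d) 0) || Nat.beq n d)

lemma pass_of_prime {n : ℕ} (h : n.Prime) : pass n = true := by
  unfold pass
  rw [List.all_eq_true]
  intro d hd
  rw [Bool.or_eq_true, Bool.not_eq_true', Nat.beq_eq, Bool.eq_false_iff, Ne, Nat.beq_eq]
  by_cases h1 : n % d = 0
  · right
    rcases (Nat.dvd_prime h).1 (Nat.dvd_of_mod_eq_zero h1) with h2 | h2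
    · subst h2
      simp at hd
    · exact h2.symm
  · left
    exact h1

/-- Upper bounds for `10 ^ 9 log 2 / (p log p)`. -/
def sc (n : ℕ) : ℕ := 64 * 10 ^ 9 / (n * Nat.log2 (n ^ 64)) + 1

/-- The sum of the bounds. -/
def ssum : ℕ → ℕ
  | 0 => 0
  | n + 1 => ssum n + bif Nat.ble 11 (n + 1) && pass (n + 1) then sc (n + 1) else 0

lemma ssum_val : ssum 1024 ≤ 190000000 := by decide +kernel

lemma sc_le {p : ℕ} (hp : 11 ≤ p) :
    1 / ((p : ℝ) * Real.log p) ≤ (sc p : ℝ) / (10 ^ 9 * Real.log 2) := by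
  obtain ⟨L, hL⟩ : ∃ L, L = Nat.log2 (p ^ 64) := ⟨_, rfl⟩
  have hp64 : p ^ 64 ≠ 0 := by positivity
  have hL1 : 1 ≤ L := by
    rw [hL, Nat.le_log2 hp64]
    calc 2 ^ 1 ≤ p ^ 1 := by
          rw [pow_one, pow_one]
          omega
      _ ≤ p ^ 64 := Nat.pow_le_pow_right (by omega) (by norm_num)
  have hL2 : 2 ^ L ≤ p ^ 64 := by
    rw [← Nat.le_log2 hp64, hL]
  have hp' : (11 : ℝ) ≤ p := by exact_mod_cast hp
  have hlog2 : 0 < Real.log 2 := Real.log_pos (by norm_num)
  have h1 : (L : ℝ) * Real.log 2 ≤ 64 * Real.log p := by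
    have h2 : ((2 : ℝ) ^ L) ≤ (p : ℝ) ^ 64 := by exact_mod_cast hL2
    have h3 := Real.log_le_log (by positivity) h2
    rw [Real.log_pow, Real.log_pow] at h3
    exact_mod_cast h3
  have hL' : (1 : ℝ) ≤ L := by exact_mod_cast hL1
  have h2 : (64 : ℝ) * 10 ^ 9 / (p * L) ≤ sc p := by
    have h3 : 64 * 10 ^ 9 < (p * L) * (64 * 10 ^ 9 / (p * L) + 1) := by
      have h4 := Nat.div_add_mod (64 * 10 ^ 9) (p * L)
      have h5 : 64 * 10 ^ 9 % (p * L) < p * L := Nat.mod_lt _ (by positivity)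
      rw [Nat.mul_add, Nat.mul_one]
      omega
    have h4 : ((64 : ℝ) * 10 ^ 9) ≤ (p * L) * (sc p : ℝ) := by
      have h5 : sc p = 64 * 10 ^ 9 / (p * L) + 1 := by rw [sc, ← hL]
      rw [h5]
      exact_mod_cast h3.le
    rw [div_le_iff₀ (by positivity)]
    linarith
  have h3 : 0 < Real.log p := Real.log_pos (by linarith)
  rw [div_le_div_iff₀ (by positivity) (by positivity)]
  have h4 : (64 : ℝ) * 10 ^ 9 ≤ sc p * (p * L) := by
    rw [div_le_iff₀ (by positivity)] at h2
    exact h2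
  have h5 : (10 : ℝ) ^ 9 * (L * Real.log 2) ≤ 10 ^ 9 * (64 * Real.log p) :=
    mul_le_mul_of_nonneg_left h1 (by positivity)
  have h6 : (64 * 10 ^ 9 : ℝ) * Real.log p ≤ sc p * (p * L) * Real.log p :=
    mul_le_mul_of_nonneg_right h4 h3.le
  have h7 : (L : ℝ) * (10 ^ 9 * Real.log 2) ≤ L * (sc p * (p * Real.log p)) := by linarith
  have h8 := le_of_mul_le_mul_left h7 (by linarith)
  linarith

lemma tl_ssum : ∀ n, 10 ≤ n → tl 10 n ≤ (ssum n : ℝ) / (10 ^ 9 * Real.log 2) := by
  intro n hn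
  have hlog2 : 0 < Real.log 2 := Real.log_pos (by norm_num)
  induction n, hn using Nat.le_induction with
  | base =>
    have : tl 10 10 = 0 := by simp [tl]
    rw [this]
    positivity
  | succ n hn ih =>
    rw [tl_succ hn, ssum]
    push_cast
    rw [add_div]
    apply add_le_add ih
    split_ifs with h
    · have h1 : (Nat.ble 11 (n + 1) && pass (n + 1)) = true := by
        rw [Bool.and_eq_true, Nat.ble_eq]
        exact ⟨by omega, pass_of_prime h⟩
      rw [h1, cond_true]
      have := sc_le (p := n + 1) (by omega)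
      push_cast at this
      exact this
    · positivity

/-- The density of the numbers beginning with `10` in base `p`. -/
noncomputable def ell (p : ℕ) : ℝ := (Real.log ((p + 1 : ℕ) : ℝ) - Real.log p) / Real.log p

lemma ell_nonneg {p : ℕ} (hp : 2 ≤ p) : 0 ≤ ell p := by
  have hp' : (2 : ℝ) ≤ p := by exact_mod_cast hp
  have h1 : 0 < Real.log p := Real.log_pos (by linarith)
  have h2 : Real.log p ≤ Real.log ((p + 1 : ℕ) : ℝ) := by
    apply Real.log_le_log (by linarith)
    push_cast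
    linarith
  unfold ell
  apply div_nonneg
  · linarith
  · exact h1.le

lemma ell_le {p : ℕ} (hp : 2 ≤ p) : ell p ≤ 1 / ((p : ℝ) * Real.log p) := by
  have hp' : (2 : ℝ) ≤ p := by exact_mod_cast hp
  have h1 : 0 < Real.log p := Real.log_pos (by linarith)
  have h2 : Real.log ((p + 1 : ℕ) : ℝ) - Real.log p ≤ 1 / p := by
    rw [← Real.log_div (by positivity) (by positivity)]
    have h3 := Real.log_le_sub_one_of_pos (x := ((p + 1 : ℕ) : ℝ) / p) (by positivity)
    have h4 : ((p + 1 : ℕ) : ℝ) / p - 1 = 1 / p := by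
      push_cast
      field_simp
      ring
    linarith
  unfold ell
  rw [← div_div]
  gcongr

lemma ell_of_pow {p a b : ℕ} (hp : 2 ≤ p) (ha : 0 < a) (h : (p + 1) ^ a ≤ p ^ b) :
    ell p ≤ (b : ℝ) / a - 1 := by
  have hp' : (2 : ℝ) ≤ p := by exact_mod_cast hp
  have h1 : 0 < Real.log p := Real.log_pos (by linarith)
  have h2 : (((p + 1 : ℕ) : ℝ)) ^ a ≤ (p : ℝ) ^ b := by exact_mod_cast h
  have h3 := Real.log_le_log (by positivity) h2
  rw [Real.log_pow, Real.log_pow] at h3
  have ha' : (0 : ℝ) < a := by exact_mod_cast ha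
  unfold ell
  rw [sub_div, div_self h1.ne']
  apply sub_le_sub_right
  rw [div_le_div_iff₀ h1 ha']
  linarith

/-- The sum of the densities over the odd primes is less than `1`. -/
theorem ell_sum (Y : ℕ) : ∑ p ∈ (Finset.Ioc 2 Y).filter Nat.Prime, ell p ≤ 0.95 := by
  have hlog2 : 0 < Real.log 2 := Real.log_pos (by norm_num)
  have l1 := Real.log_two_gt_d9
  have l2 := Real.log_two_lt_d9
  -- it suffices to consider large `Y`
  wlog hY : 1024 ≤ Y with H
  · refine le_trans ?_ (H 1024 hlog2 l1 l2 le_rfl)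
    apply Finset.sum_le_sum_of_subset_of_nonneg
    · intro p hp
      rw [Finset.mem_filter, Finset.mem_Ioc] at hp ⊢
      exact ⟨⟨hp.1.1, by omega⟩, hp.2⟩
    · intro p hp _
      rw [Finset.mem_filter, Finset.mem_Ioc] at hp
      exact ell_nonneg (by omega)
  have hsplit : (Finset.Ioc 2 Y).filter Nat.Prime = {3, 5, 7} ∪
      ((Finset.Ioc 10 1024).filter Nat.Prime ∪ (Finset.Ioc 1024 Y).filter Nat.Prime) := by
    ext p
    simp only [Finset.mem_filter, Finset.mem_Ioc, Finset.mem_union, Finset.mem_insert,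
      Finset.mem_singleton]
    constructor
    · rintro ⟨⟨h1, h2⟩, h3⟩
      rcases Nat.lt_or_ge 1024 p with h4 | h4
      · exact Or.inr (Or.inr ⟨⟨h4, h2⟩, h3⟩)
      · rcases Nat.lt_or_ge 10 p with h5 | h5
        · exact Or.inr (Or.inl ⟨⟨h5, h4⟩, h3⟩)
        · left
          interval_cases p <;> first | omega | (norm_num at h3)
    · rintro ((rfl | rfl | rfl) | ⟨⟨h1, h2⟩, h3⟩ | ⟨⟨h1, h2⟩, h3⟩)
      · exact ⟨⟨by norm_num, by omega⟩, by norm_num⟩
      · exact ⟨⟨by norm_num, by omega⟩, by norm_num⟩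
      · exact ⟨⟨by norm_num, by omega⟩, by norm_num⟩
      · exact ⟨⟨by omega, by omega⟩, h3⟩
      · exact ⟨⟨by omega, h2⟩, h3⟩
  have hd1 : Disjoint ((Finset.Ioc 10 1024).filter Nat.Prime)
      ((Finset.Ioc 1024 Y).filter Nat.Prime) := by
    rw [Finset.disjoint_left]
    intro p h1 h2
    rw [Finset.mem_filter, Finset.mem_Ioc] at h1 h2
    omega
  have hd2 : Disjoint ({3, 5, 7} : Finset ℕ) ((Finset.Ioc 10 1024).filter Nat.Prime ∪
      (Finset.Ioc 1024 Y).filter Nat.Prime) := by
    rw [Finset.disjoint_left]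
    intro p h1 h2
    simp only [Finset.mem_filter, Finset.mem_Ioc, Finset.mem_union, Finset.mem_insert,
      Finset.mem_singleton] at h1 h2
    omega
  rw [hsplit, Finset.sum_union hd2, Finset.sum_union hd1]
  have h3 : ell 3 ≤ 11 / 42 := by
    have := ell_of_pow (p := 3) (a := 42) (b := 53) (by norm_num) (by norm_num) (by norm_num)
    norm_num at this ⊢
    linarith
  have h5 : ell 5 ≤ 11 / 97 := by
    have := ell_of_pow (p := 5) (a := 97) (b := 108) (by norm_num) (by norm_num) (by norm_num)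
    norm_num at this ⊢
    linarith
  have h7 : ell 7 ≤ 2 / 29 := by
    have := ell_of_pow (p := 7) (a := 29) (b := 31) (by norm_num) (by norm_num) (by norm_num)
    norm_num at this ⊢
    linarith
  have e1 : ∑ p ∈ ({3, 5, 7} : Finset ℕ), ell p ≤ 11 / 42 + 11 / 97 + 2 / 29 := by
    rw [Finset.sum_insert (by simp), Finset.sum_insert (by simp), Finset.sum_singleton]
    linarith
  have e2 : ∑ p ∈ (Finset.Ioc 10 1024).filter Nat.Prime, ell p ≤ 0.2742 := by
    have f1 : ∑ p ∈ (Finset.Ioc 10 1024).filter Nat.Prime, ell p ≤ tl 10 1024 := by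
      apply Finset.sum_le_sum
      intro p hp
      rw [Finset.mem_filter, Finset.mem_Ioc] at hp
      exact ell_le (by omega)
    have f2 := tl_ssum 1024 (by norm_num)
    have f3 : (ssum 1024 : ℝ) ≤ 190000000 := by exact_mod_cast ssum_val
    have f4 : (ssum 1024 : ℝ) / (10 ^ 9 * Real.log 2) ≤ 0.2742 := by
      rw [div_le_iff₀ (by positivity)]
      nlinarith
    linarith
  have e3 : ∑ p ∈ (Finset.Ioc 1024 Y).filter Nat.Prime, ell p ≤ 0.2291 := by
    have f1 : ∑ p ∈ (Finset.Ioc 1024 Y).filter Nat.Prime, ell p ≤ tl 1024 Y := by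
      apply Finset.sum_le_sum
      intro p hp
      rw [Finset.mem_filter, Finset.mem_Ioc] at hp
      exact ell_le (by omega)
    have f2 := tl_le (Y := 1024) (by norm_num) Y
    have f3 : Real.log ((1024 : ℕ) : ℝ) = 10 * Real.log 2 := by
      have : ((1024 : ℕ) : ℝ) = 2 ^ 10 := by norm_num
      rw [this, Real.log_pow]
      norm_num
    have f4 : Real.log 4 = 2 * Real.log 2 := by
      have : (4 : ℝ) = 2 ^ 2 := by norm_num
      rw [this, Real.log_pow]
      norm_num
    rw [f3, f4] at f2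
    have f5 : 2 * Real.log 2 * (1 / (10 * Real.log 2) + 1 / (10 * Real.log 2) ^ 2) =
        1 / 5 + (1 / 50) / Real.log 2 := by
      field_simp
      ring
    rw [f5] at f2
    have f6 : (1 / 50) / Real.log 2 ≤ 0.0289 := by
      rw [div_le_iff₀ hlog2]
      linarith
    linarith
  have : (11 / 42 + 11 / 97 + 2 / 29 + (0.2742 + 0.2291) : ℝ) ≤ 0.95 := by norm_num
  linarith

end Pool.Agent.Q58.WCS2
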