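import Mathlib

/-!
# Counting the visits of an irrational rotation to an interval
-/

set_option autoImplicit false

namespace Pool.Agent.Q58.WCS2

lemma card_le_of_diff (S : Finset ℕ) {D : ℝ} (hD : 0 ≤ D)
    (h : ∀ x ∈ S, ∀ y ∈ S, (x : ℝ) - y ≤ D) : (S.card : ℝ) ≤ D + 1 := by
  rcases S.eq_empty_or_nonempty with rfl | hS
  · simp
    linarith
  · have h1 : S ⊆ Finset.Icc (S.min' hS) (S.max' hS) := by
      intro x hx
      rw [Finset.mem_Icc]
      exact ⟨S.min'_le x hx, S.le_max' x hx⟩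
    have h2 := Finset.card_le_card h1
    rw [Nat.card_Icc] at h2
    have h3 := h _ (S.max'_mem hS) _ (S.min'_mem hS)
    have h4 := S.min'_le _ (S.max'_mem hS)
    have h5 : (S.card : ℝ) ≤ ((S.max' hS + 1 - S.min' hS : ℕ) : ℝ) := by exact_mod_cast h2
    rw [Nat.cast_sub (by omega)] at h5
    push_cast at h5
    linarith

open scoped Classical in
lemma visits_prog {δ : ℝ} (hδ : δ ≠ 0) {L : ℝ} (hL : 0 ≤ L) (z : ℝ) (R : ℕ) :
    (((Finset.range R).filter
      (fun n : ℕ => ∃ j : ℤ, (j : ℝ) ≤ z + n * δ ∧ z + n * δ < j + L)).card : ℝ) ≤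
      (R * |δ| + L + 1) * (L / |δ| + 1) := by
  have hδ' : 0 < |δ| := abs_pos.2 hδ
  obtain ⟨lo, hlo⟩ : ∃ lo, lo = min z (z + R * δ) := ⟨_, rfl⟩
  obtain ⟨hi, hhi⟩ : ∃ hi, hi = max z (z + R * δ) := ⟨_, rfl⟩
  have hlen : hi - lo = R * |δ| := by
    rw [hlo, hhi, max_sub_min_eq_abs]
    have : z + R * δ - z = R * δ := by ring
    rw [this, abs_mul, abs_of_nonneg (Nat.cast_nonneg R)]
  have hmem : ∀ n : ℕ, n < R → lo ≤ z + n * δ ∧ z + n * δ ≤ hi := by
    intro n hn
    have hn' : (n : ℝ) ≤ R := by exact_mod_cast hn.le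
    have hn0 : (0 : ℝ) ≤ n := Nat.cast_nonneg n
    rcases le_total 0 δ with h | h
    · constructor
      · rw [hlo]
        refine (min_le_left _ _).trans ?_
        nlinarith
      · rw [hhi]
        refine le_trans ?_ (le_max_right _ _)
        nlinarith
    · constructor
      · rw [hlo]
        refine (min_le_right _ _).trans ?_
        nlinarith
      · rw [hhi]
        refine le_trans ?_ (le_max_left _ _)
        nlinarith
  obtain ⟨J, hJ⟩ : ∃ J : Finset ℤ, J = Finset.Icc ⌈lo - L⌉ ⌊hi⌋ := ⟨_, rfl⟩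
  have hJcard : (J.card : ℝ) ≤ R * |δ| + L + 1 := by
    rw [hJ, Int.card_Icc]
    rcases le_total 0 (⌊hi⌋ + 1 - ⌈lo - L⌉) with h | h
    · have h1 : (((⌊hi⌋ + 1 - ⌈lo - L⌉).toNat : ℤ) : ℝ) = ((⌊hi⌋ + 1 - ⌈lo - L⌉ : ℤ) : ℝ) := by
        rw [Int.toNat_of_nonneg h]
      have h2 : (((⌊hi⌋ + 1 - ⌈lo - L⌉).toNat : ℕ) : ℝ) = ((⌊hi⌋ + 1 - ⌈lo - L⌉ : ℤ) : ℝ) := by
        exact_mod_cast h1
      rw [h2]
      push_cast
      have h3 := Int.floor_le hi
      have h4 := Int.le_ceil (lo - L)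
      linarith
    · rw [Int.toNat_of_nonpos h]
      push_cast
      positivity
  have hsub : (Finset.range R).filter
      (fun n : ℕ => ∃ j : ℤ, (j : ℝ) ≤ z + n * δ ∧ z + n * δ < j + L) ⊆
      J.biUnion (fun j => (Finset.range R).filter
        (fun n : ℕ => (j : ℝ) ≤ z + n * δ ∧ z + n * δ < j + L)) := by
    intro n hn
    rw [Finset.mem_filter, Finset.mem_range] at hn
    obtain ⟨hn1, j, hj1, hj2⟩ := hn
    rw [Finset.mem_biUnion]
    refine ⟨j, ?_, ?_⟩
    · rw [hJ, Finset.mem_Icc]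
      have h1 := hmem n hn1
      constructor
      · rw [Int.ceil_le]
        linarith
      · rw [Int.le_floor]
        linarith
    · rw [Finset.mem_filter, Finset.mem_range]
      exact ⟨hn1, hj1, hj2⟩
  have hfib : ∀ j ∈ J, (((Finset.range R).filter
        (fun n : ℕ => (j : ℝ) ≤ z + n * δ ∧ z + n * δ < j + L)).card : ℝ) ≤ L / |δ| + 1 := by
    intro j _
    apply card_le_of_diff
    · positivity
    · intro x hx y hy
      rw [Finset.mem_filter] at hx hy
      rw [le_div_iff₀ hδ']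
      have h1 : |((x : ℝ) - y) * δ| ≤ L := by
        rw [abs_le]
        constructor
        · nlinarith [hx.2.1, hx.2.2, hy.2.1, hy.2.2]
        · nlinarith [hx.2.1, hx.2.2, hy.2.1, hy.2.2]
      rw [abs_mul] at h1
      have h2 : ((x : ℝ) - y) ≤ |(x : ℝ) - y| := le_abs_self _
      calc ((x : ℝ) - y) * |δ| ≤ |(x : ℝ) - y| * |δ| := by gcongr
        _ ≤ L := h1
  calc (((Finset.range R).filter
      (fun n : ℕ => ∃ j : ℤ, (j : ℝ) ≤ z + n * δ ∧ z + n * δ < j + L)).card : ℝ)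
      ≤ ((J.biUnion (fun j => (Finset.range R).filter
        (fun n : ℕ => (j : ℝ) ≤ z + n * δ ∧ z + n * δ < j + L))).card : ℝ) := by
        exact_mod_cast Finset.card_le_card hsub
    _ ≤ ((∑ j ∈ J, ((Finset.range R).filter
        (fun n : ℕ => (j : ℝ) ≤ z + n * δ ∧ z + n * δ < j + L)).card : ℕ) : ℝ) := by
        exact_mod_cast Finset.card_biUnion_le
    _ ≤ ∑ j ∈ J, (L / |δ| + 1) := by
        push_cast
        exact Finset.sum_le_sum hfib
    _ = J.card * (L / |δ| + 1) := by rw [Finset.sum_const, nsmul_eq_mul]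
    _ ≤ (R * |δ| + L + 1) * (L / |δ| + 1) := by
        have : 0 ≤ L / |δ| + 1 := by positivity
        gcongr

open scoped Classical in
/-- The number of visits of an irrational rotation to an interval of length `L`. -/
theorem visits {β : ℝ} (hβ : Irrational β) {L : ℝ} (hL : 0 ≤ L) {τ : ℝ} (hτ : 0 < τ) :
    ∃ K : ℝ, 0 ≤ K ∧ ∀ (γ : ℝ) (M : ℕ), (((Finset.range M).filter
      (fun m : ℕ => ∃ j : ℤ, (j : ℝ) ≤ m * β + γ ∧ m * β + γ < j + L)).card : ℝ) ≤
      (L + τ) * M + K := by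
  obtain ⟨N, hN⟩ := exists_nat_gt (1 / τ)
  have hN0 : 0 < N := by
    have : 0 < 1 / τ := by positivity
    have h1 : (0 : ℝ) < N := by linarith
    exact_mod_cast h1
  obtain ⟨b, a', ha1, -, ha3⟩ := Real.exists_int_int_abs_mul_sub_le β hN0
  obtain ⟨a, rfl⟩ : ∃ a : ℕ, a' = a := ⟨a'.toNat, (Int.toNat_of_nonneg ha1.le).symm⟩
  have ha : 0 < a := by exact_mod_cast ha1
  obtain ⟨δ, hδd⟩ : ∃ δ : ℝ, δ = a * β - b := ⟨_, rfl⟩
  have hδ0 : δ ≠ 0 := by
    intro h
    rw [hδd] at h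
    have h1 : Irrational ((a : ℝ) * β) := hβ.natCast_mul ha.ne'
    apply h1.ne_int b
    linarith
  have hδτ : |δ| ≤ τ := by
    have h1 : |δ| ≤ 1 / (N + 1) := by
      rw [hδd]
      exact_mod_cast ha3
    have h2 : 1 / ((N : ℝ) + 1) ≤ τ := by
      rw [div_le_iff₀ (by positivity)]
      rw [div_lt_iff₀ hτ] at hN
      nlinarith
    linarith
  have hδ' : 0 < |δ| := abs_pos.2 hδ0
  have ha' : (0 : ℝ) < a := by exact_mod_cast ha
  refine ⟨a * (L + τ) + a * ((L + 1) * (L / |δ| + 1)), by positivity, ?_⟩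
  intro γ M
  have hsub : (Finset.range M).filter
      (fun m : ℕ => ∃ j : ℤ, (j : ℝ) ≤ m * β + γ ∧ m * β + γ < j + L) ⊆
      (Finset.range a).biUnion (fun r => ((Finset.range (M / a + 1)).filter
      (fun n : ℕ => ∃ j : ℤ, (j : ℝ) ≤ (r * β + γ) + n * δ ∧ (r * β + γ) + n * δ < j + L)).image
        (fun n => a * n + r)) := by
    intro m hm
    rw [Finset.mem_filter, Finset.mem_range] at hm
    obtain ⟨hm1, j, hj1, hj2⟩ := hm
    rw [Finset.mem_biUnion]
    refine ⟨m % a, Finset.mem_range.2 (Nat.mod_lt _ ha), ?_⟩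
    rw [Finset.mem_image]
    obtain ⟨q, hq⟩ : ∃ q, q = m / a := ⟨_, rfl⟩
    obtain ⟨r, hr⟩ : ∃ r, r = m % a := ⟨_, rfl⟩
    have hqr : a * q + r = m := by rw [hq, hr]; exact Nat.div_add_mod m a
    have hqM : q ≤ M / a := hq ▸ Nat.div_le_div_right hm1.le
    rw [← hr]
    refine ⟨q, ?_, hqr⟩
    rw [Finset.mem_filter, Finset.mem_range]
    refine ⟨by omega, j - (q : ℤ) * b, ?_⟩
    have h1 : (m : ℝ) = a * (q : ℝ) + (r : ℝ) := by exact_mod_cast hqr.symm
    have h2 : (r : ℝ) * β + γ + (q : ℝ) * δ = m * β + γ - (q : ℝ) * b := by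
      rw [h1, hδd]
      ring
    rw [h2]
    push_cast
    constructor
    · linarith
    · linarith
  have hR : ((M / a + 1 : ℕ) : ℝ) ≤ M / a + 1 := by
    push_cast
    have := @Nat.cast_div_le ℝ _ _ _ M a
    linarith
  calc (((Finset.range M).filter
      (fun m : ℕ => ∃ j : ℤ, (j : ℝ) ≤ m * β + γ ∧ m * β + γ < j + L)).card : ℝ)
      ≤ (((Finset.range a).biUnion (fun r => ((Finset.range (M / a + 1)).filter
      (fun n : ℕ => ∃ j : ℤ, (j : ℝ) ≤ (r * β + γ) + n * δ ∧ (r * β + γ) + n * δ < j + L)).image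
        (fun n => a * n + r))).card : ℝ) := by exact_mod_cast Finset.card_le_card hsub
    _ ≤ ((∑ r ∈ Finset.range a, (((Finset.range (M / a + 1)).filter
      (fun n : ℕ => ∃ j : ℤ, (j : ℝ) ≤ (r * β + γ) + n * δ ∧ (r * β + γ) + n * δ < j + L)).image
        (fun n => a * n + r)).card : ℕ) : ℝ) := by exact_mod_cast Finset.card_biUnion_le
    _ ≤ ∑ r ∈ Finset.range a, (((M / a + 1 : ℕ) : ℝ) * |δ| + L + 1) * (L / |δ| + 1) := by
        push_cast
        apply Finset.sum_le_sum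
        intro r _
        have h1 := visits_prog hδ0 hL (r * β + γ) (M / a + 1)
        push_cast at h1
        refine le_trans ?_ h1
        exact_mod_cast Finset.card_image_le
    _ = a * ((((M / a + 1 : ℕ) : ℝ) * |δ| + L + 1) * (L / |δ| + 1)) := by
        rw [Finset.sum_const, nsmul_eq_mul, Finset.card_range]
    _ ≤ a * (((M / a + 1 : ℝ) * |δ| + L + 1) * (L / |δ| + 1)) := by
        have : 0 ≤ L / |δ| + 1 := by positivity
        gcongr
    _ = (L + |δ|) * M + (a * (L + |δ|) + a * ((L + 1) * (L / |δ| + 1))) := by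
        field_simp
        ring
    _ ≤ (L + τ) * M + (a * (L + τ) + a * ((L + 1) * (L / |δ| + 1))) := by
        have : (0 : ℝ) ≤ M := Nat.cast_nonneg M
        gcongr

end Pool.Agent.Q58.WCS2
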