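import Mathlib
import Pool.Agent.Q58.WCS2.Tail
import Pool.Agent.Q58.WCS2.Weyl

/-!
# Numbers which do not begin with `10` in any prime base
-/

set_option autoImplicit false

namespace Pool.Agent.Q58.WCS2

open scoped Classical

/-- The base `p` expansion of `k` begins with the digits `10`, or `k = p`. -/
def Bd (p k : ℕ) : Prop := ∃ j, 1 ≤ j ∧ p ^ j ≤ k ∧ k < p ^ j + p ^ (j - 1)

/-- `k` does not begin with `10` in any prime base. -/
def Good (k : ℕ) : Prop := ∀ p, p.Prime → ¬ Bd p k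

/-- The numbers `24` modulo `30` in a window. -/
noncomputable def AP (b : ℕ) : Finset ℕ :=
  (Finset.Ico (3 * 2 ^ b) (4 * 2 ^ b)).filter (fun k => k % 30 = 24)

/-- The good numbers in the window. -/
noncomputable def G (b : ℕ) : Finset ℕ := (AP b).filter Good

/-- The numbers in the window beginning with `10` in base `p`. -/
noncomputable def X (p b : ℕ) : Finset ℕ := (AP b).filter (Bd p)

lemma cover {b k : ℕ} (hb : 3 ≤ b) (hk : k ∈ AP b) (hg : ¬ Good k) :
    ∃ p, p.Prime ∧ 3 ≤ p ∧ p < 2 ^ (b / 2 + 2) ∧ Bd p k := by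
  rw [AP, Finset.mem_filter, Finset.mem_Ico] at hk
  obtain ⟨⟨hk1, hk2⟩, hk3⟩ := hk
  have h8 : 2 ^ 3 ≤ 2 ^ b := Nat.pow_le_pow_right (by norm_num) hb
  unfold Good at hg
  push Not at hg
  obtain ⟨p, hp, hB⟩ := hg
  obtain ⟨j, hj1, hj2, hj3⟩ := hB
  have hp2 : p ≠ 2 := by
    rintro rfl
    obtain ⟨i, rfl⟩ : ∃ i, j = i + 1 := ⟨j - 1, by omega⟩
    have e1 : i + 1 - 1 = i := by omega
    rw [e1, pow_succ] at hj3
    rw [pow_succ] at hj2
    have h1 : b < i := by
      by_contra hcon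
      push Not at hcon
      have : 2 ^ i ≤ 2 ^ b := Nat.pow_le_pow_right (by norm_num) hcon
      omega
    have h2 : 2 ^ (b + 1) ≤ 2 ^ i := Nat.pow_le_pow_right (by norm_num) h1
    rw [pow_succ] at h2
    omega
  have hp3 : 3 ≤ p := by
    have := hp.two_le
    omega
  have hj : 2 ≤ j := by
    by_contra hcon
    have e1 : j = 1 := by omega
    subst e1
    simp only [pow_one, Nat.sub_self, pow_zero] at hj2 hj3
    have e2 : p = k := by omega
    subst e2
    have h2 : 2 ∣ p := by omega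
    have := (Nat.prime_dvd_prime_iff_eq Nat.prime_two hp).1 h2
    omega
  refine ⟨p, hp, hp3, ?_, j, hj1, hj2, hj3⟩
  by_contra hcon
  push Not at hcon
  have h1 : p ^ 2 ≤ p ^ j := Nat.pow_le_pow_right hp.pos hj
  have h2 : (2 ^ (b / 2 + 2)) ^ 2 ≤ p ^ 2 := Nat.pow_le_pow_left hcon 2
  have h3 : 2 ^ (b + 2) ≤ (2 ^ (b / 2 + 2)) ^ 2 := by
    rw [← pow_mul]
    apply Nat.pow_le_pow_right (by norm_num)
    omega
  rw [pow_succ, pow_succ] at h3
  omega

lemma ap_upper (A l : ℕ) :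
    ((((Finset.Ico A (A + l)).filter (fun k => k % 30 = 24)).card : ℕ) : ℝ) ≤ (l : ℝ) / 30 + 1 := by
  have hinj : Set.InjOn (fun k => k / 30)
      (((Finset.Ico A (A + l)).filter (fun k => k % 30 = 24) : Finset ℕ) : Set ℕ) := by
    intro x hx y hy hxy
    rw [Finset.mem_coe, Finset.mem_filter] at hx hy
    simp only at hxy
    omega
  rw [← Finset.card_image_of_injOn hinj]
  apply card_le_of_diff
  · positivity
  · intro x hx y hy
    rw [Finset.mem_image] at hx hy
    obtain ⟨x', hx', rfl⟩ := hx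
    obtain ⟨y', hy', rfl⟩ := hy
    rw [Finset.mem_filter, Finset.mem_Ico] at hx' hy'
    have h1 : 30 * (x' / 30) ≤ 30 * (y' / 30) + l := by omega
    have h2 : (30 : ℝ) * ((x' / 30 : ℕ) : ℝ) ≤ 30 * ((y' / 30 : ℕ) : ℝ) + l := by exact_mod_cast h1
    linarith

lemma ap_lower (b : ℕ) : (2 : ℝ) ^ b / 30 - 1 ≤ ((AP b).card : ℝ) := by
  obtain ⟨a0, ha0⟩ : ∃ a0, a0 = 3 * 2 ^ b + (54 - (3 * 2 ^ b) % 30) % 30 := ⟨_, rfl⟩
  have h1 : a0 % 30 = 24 := by
    rw [ha0]
    omega
  have h2 : 3 * 2 ^ b ≤ a0 ∧ a0 < 3 * 2 ^ b + 30 := by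
    rw [ha0]
    omega
  have hsub : (Finset.range (2 ^ b / 30)).image (fun n => 30 * n + a0) ⊆ AP b := by
    intro x hx
    rw [Finset.mem_image] at hx
    obtain ⟨n, hn, rfl⟩ := hx
    rw [Finset.mem_range] at hn
    rw [AP, Finset.mem_filter, Finset.mem_Ico]
    omega
  have h3 := Finset.card_le_card hsub
  rw [Finset.card_image_of_injective _ (by
    intro x y hxy
    simp only at hxy
    omega), Finset.card_range] at h3
  have h4 : (2 : ℕ) ^ b < 30 * (2 ^ b / 30 + 1) := by omega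
  have h5 : ((2 : ℝ) ^ b) < 30 * (((2 ^ b / 30 : ℕ) : ℝ) + 1) := by exact_mod_cast h4
  have h6 : ((2 ^ b / 30 : ℕ) : ℝ) ≤ (AP b).card := by exact_mod_cast h3
  linarith

/-- A number beginning with `10` in base `p` lies in a short interval. -/
def NB (p k m : ℕ) : Prop := ∃ j, 1 ≤ j ∧ p ^ j < (k + 1) * 2 ^ m ∧ k * 2 ^ m < p ^ j + p ^ (j - 1)

lemma X_card (p N m : ℕ) : ((X p (N + m)).card : ℝ) ≤
    ∑ k ∈ Finset.Ico (3 * 2 ^ N) (4 * 2 ^ N), if NB p k m then ((2 : ℝ) ^ m / 30 + 1) else 0 := by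
  have h2m : 0 < 2 ^ m := by positivity
  have hsub : X p (N + m) ⊆ ((Finset.Ico (3 * 2 ^ N) (4 * 2 ^ N)).filter (fun k => NB p k m)).biUnion
      (fun k => (Finset.Ico (k * 2 ^ m) (k * 2 ^ m + 2 ^ m)).filter (fun x => x % 30 = 24)) := by
    intro x hx
    rw [X, Finset.mem_filter, AP, Finset.mem_filter, Finset.mem_Ico] at hx
    obtain ⟨⟨⟨hx1, hx2⟩, hx3⟩, j, hj1, hj2, hj3⟩ := hx
    have e1 : 3 * 2 ^ (N + m) = (3 * 2 ^ N) * 2 ^ m := by ring
    have e2 : 4 * 2 ^ (N + m) = (4 * 2 ^ N) * 2 ^ m := by ring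
    rw [e1] at hx1
    rw [e2] at hx2
    have h1 := Nat.div_mul_le_self x (2 ^ m)
    have h2 : x < (x / 2 ^ m + 1) * 2 ^ m := by
      have := Nat.lt_div_mul_add (a := x) h2m
      rw [Nat.add_mul, Nat.one_mul]
      exact this
    rw [Finset.mem_biUnion]
    refine ⟨x / 2 ^ m, ?_, ?_⟩
    · rw [Finset.mem_filter, Finset.mem_Ico]
      refine ⟨⟨?_, ?_⟩, j, hj1, ?_, ?_⟩
      · exact (Nat.le_div_iff_mul_le h2m).2 hx1
      · exact (Nat.div_lt_iff_lt_mul h2m).2 hx2
      · omega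
      · omega
    · rw [Finset.mem_filter, Finset.mem_Ico]
      rw [Nat.add_mul, Nat.one_mul] at h2
      exact ⟨⟨h1, h2⟩, hx3⟩
  calc ((X p (N + m)).card : ℝ) ≤ ((((Finset.Ico (3 * 2 ^ N) (4 * 2 ^ N)).filter
        (fun k => NB p k m)).biUnion (fun k => (Finset.Ico (k * 2 ^ m) (k * 2 ^ m + 2 ^ m)).filter
        (fun x => x % 30 = 24))).card : ℝ) := by exact_mod_cast Finset.card_le_card hsub
    _ ≤ ((∑ k ∈ (Finset.Ico (3 * 2 ^ N) (4 * 2 ^ N)).filter (fun k => NB p k m),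
        ((Finset.Ico (k * 2 ^ m) (k * 2 ^ m + 2 ^ m)).filter (fun x => x % 30 = 24)).card : ℕ) : ℝ) := by
        exact_mod_cast Finset.card_biUnion_le
    _ ≤ ∑ k ∈ (Finset.Ico (3 * 2 ^ N) (4 * 2 ^ N)).filter (fun k => NB p k m),
        ((2 : ℝ) ^ m / 30 + 1) := by
        push_cast
        apply Finset.sum_le_sum
        intro k _
        have := ap_upper (k * 2 ^ m) (2 ^ m)
        push_cast at this
        exact this
    _ = _ := by rw [Finset.sum_filter]

lemma irr {p : ℕ} (hp : p.Prime) (hp3 : 3 ≤ p) : Irrational (Real.log 2 / Real.log p) := by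
  rw [Irrational]
  rintro ⟨q, hq⟩
  have hp' : (3 : ℝ) ≤ p := by exact_mod_cast hp3
  have h1 : 0 < Real.log p := Real.log_pos (by linarith)
  have h2 : 0 < Real.log 2 := Real.log_pos (by norm_num)
  have h3 : (0 : ℝ) < q := by
    rw [hq]
    positivity
  have h4 : 0 < q := by exact_mod_cast h3
  have h5 : (q.num : ℝ) * Real.log p = q.den * Real.log 2 := by
    have h6 : (q : ℝ) = q.num / q.den := by exact_mod_cast (Rat.num_div_den q).symm
    rw [h6] at hq
    have h7 : (0 : ℝ) < q.den := by exact_mod_cast q.den_pos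
    field_simp at hq
    linarith
  obtain ⟨n, hn⟩ : ∃ n : ℕ, q.num = n := ⟨q.num.toNat, (Int.toNat_of_nonneg (Rat.num_pos.2 h4).le).symm⟩
  rw [hn] at h5
  have h6 : Real.log ((p : ℝ) ^ n) = Real.log ((2 : ℝ) ^ q.den) := by
    rw [Real.log_pow, Real.log_pow]
    exact_mod_cast h5
  have h7 : (p : ℝ) ^ n = 2 ^ q.den :=
    Real.log_injOn_pos (Set.mem_Ioi.2 (by positivity)) (Set.mem_Ioi.2 (by positivity)) h6
  have h8 : p ^ n = 2 ^ q.den := by exact_mod_cast h7
  have h9 : 2 ∣ p ^ n := by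
    rw [h8]
    exact dvd_pow_self 2 q.den_nz
  have := (Nat.prime_dvd_prime_iff_eq Nat.prime_two hp).1 (Nat.prime_two.dvd_of_dvd_pow h9)
  omega

lemma log_ge_one {p : ℕ} (hp3 : 3 ≤ p) : 1 ≤ Real.log p := by
  rw [Real.le_log_iff_exp_le (by
    have : (0 : ℝ) < p := by
      have : 0 < p := by omega
      exact_mod_cast this
    exact this)]
  have h1 := Real.exp_one_lt_d9
  have h2 : (3 : ℝ) ≤ p := by exact_mod_cast hp3
  linarith

lemma NB_count {p : ℕ} (hp : p.Prime) (hp3 : 3 ≤ p) (N : ℕ) {τ : ℝ} (hτ : 0 < τ) :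
    ∃ K : ℝ, 0 ≤ K ∧ ∀ k, 3 * 2 ^ N ≤ k → ∀ M : ℕ,
      (((Finset.range M).filter (fun m => NB p k m)).card : ℝ) ≤
        (ell p + 1 / 2 ^ N + τ) * M + K := by
  have hL : 0 ≤ ell p + 1 / 2 ^ N := by
    have := ell_nonneg (p := p) (by omega)
    positivity
  obtain ⟨K, hK0, hK⟩ := visits (irr hp hp3) hL hτ
  refine ⟨K, hK0, ?_⟩
  intro k hk M
  have hp' : (3 : ℝ) ≤ p := by exact_mod_cast hp3
  have hlp := log_ge_one hp3
  have h2N : (1 : ℝ) ≤ 2 ^ N := one_le_pow₀ (by norm_num)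
  have hk' : (3 : ℝ) * 2 ^ N ≤ k := by exact_mod_cast hk
  have hk0 : (0 : ℝ) < k := by linarith
  refine le_trans ?_ (hK (Real.log ((k + 1 : ℕ) : ℝ) / Real.log p) M)
  have hsub : (Finset.range M).filter (fun m => NB p k m) ⊆ (Finset.range M).filter
      (fun m : ℕ => ∃ j : ℤ, (j : ℝ) ≤ m * (Real.log 2 / Real.log p) +
        Real.log ((k + 1 : ℕ) : ℝ) / Real.log p ∧ m * (Real.log 2 / Real.log p) +
        Real.log ((k + 1 : ℕ) : ℝ) / Real.log p < j + (ell p + 1 / 2 ^ N)) := by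
    intro m hm
    rw [Finset.mem_filter] at hm ⊢
    obtain ⟨hm1, j, hj1, hj2, hj3⟩ := hm
    refine ⟨hm1, (j : ℤ), ?_, ?_⟩
    · have h1 : ((p : ℝ) ^ j) < ((k + 1 : ℕ) : ℝ) * 2 ^ m := by exact_mod_cast hj2
      have h2 := Real.log_lt_log (by positivity) h1
      rw [Real.log_mul (by positivity) (by positivity), Real.log_pow, Real.log_pow] at h2
      have h3 : m * (Real.log 2 / Real.log p) + Real.log ((k + 1 : ℕ) : ℝ) / Real.log p =
          (Real.log ((k + 1 : ℕ) : ℝ) + m * Real.log 2) / Real.log p := by ring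
      rw [h3, le_div_iff₀ (by linarith)]
      push_cast at h2 ⊢
      linarith
    · have e1 : p ^ j + p ^ (j - 1) = p ^ (j - 1) * (p + 1) := by
        obtain ⟨i, rfl⟩ : ∃ i, j = i + 1 := ⟨j - 1, by omega⟩
        have : i + 1 - 1 = i := by omega
        rw [this, pow_succ]
        ring
      rw [e1] at hj3
      have h1 : (k : ℝ) * 2 ^ m < (p : ℝ) ^ (j - 1) * ((p + 1 : ℕ) : ℝ) := by exact_mod_cast hj3
      have h2 := Real.log_lt_log (by positivity) h1
      rw [Real.log_mul (by positivity) (by positivity),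
        Real.log_mul (by positivity) (by positivity), Real.log_pow, Real.log_pow,
        Nat.cast_sub hj1] at h2
      have h3 : Real.log ((k + 1 : ℕ) : ℝ) - Real.log k ≤ 1 / 2 ^ N := by
        rw [← Real.log_div (by positivity) (by positivity)]
        have h4 := Real.log_le_sub_one_of_pos (x := ((k + 1 : ℕ) : ℝ) / k) (by positivity)
        have h5 : ((k + 1 : ℕ) : ℝ) / k - 1 = 1 / k := by
          push_cast
          field_simp
          ring
        have h6 : 1 / (k : ℝ) ≤ 1 / 2 ^ N := by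
          apply one_div_le_one_div_of_le (by positivity)
          linarith
        linarith
      have h4 : 1 / (2 : ℝ) ^ N ≤ (1 / 2 ^ N) * Real.log p :=
        le_mul_of_one_le_right (by positivity) hlp
      have h5 : ell p * Real.log p = Real.log ((p + 1 : ℕ) : ℝ) - Real.log p := by
        unfold ell
        rw [div_mul_cancel₀ _ (by linarith)]
      have h6 : m * (Real.log 2 / Real.log p) + Real.log ((k + 1 : ℕ) : ℝ) / Real.log p =
          (Real.log ((k + 1 : ℕ) : ℝ) + m * Real.log 2) / Real.log p := by ring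
      rw [h6, div_lt_iff₀ (by linarith)]
      push_cast at h2 ⊢
      push_cast at h3 h5
      nlinarith
  exact_mod_cast Finset.card_le_card hsub

/-- A power of `p` with exponent at least `2` lies in the window. -/
def Iw (p b : ℕ) : Prop := ∃ j, 2 ≤ j ∧ 2 ^ (b + 1) < p ^ j ∧ p ^ j < 2 ^ (b + 2)

lemma X_large {p b : ℕ} (hb : 3 ≤ b) (hp : p.Prime) (hp3 : 3 ≤ p) :
    ((X p b).card : ℝ) * (30 / 2 ^ b) ≤ if Iw p b then (4 / (p : ℝ) + 30 / 2 ^ b) else 0 := by
  have h8 : 2 ^ 3 ≤ 2 ^ b := Nat.pow_le_pow_right (by norm_num) hb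
  have hp0 : (0 : ℝ) < p := by exact_mod_cast hp.pos
  rcases (X p b).eq_empty_or_nonempty with h | ⟨k, hk⟩
  · rw [h]
    simp only [Finset.card_empty, Nat.cast_zero, zero_mul]
    split_ifs
    · positivity
    · exact le_rfl
  · have key : ∀ x ∈ X p b, ∃ j, 2 ≤ j ∧ 2 ^ (b + 1) < p ^ j ∧ p ^ j < 2 ^ (b + 2) ∧
        p ^ j ≤ x ∧ x < p ^ j + p ^ (j - 1) := by
      intro x hx
      rw [X, Finset.mem_filter, AP, Finset.mem_filter, Finset.mem_Ico] at hx
      obtain ⟨⟨⟨hx1, hx2⟩, hx3⟩, j, hj1, hj2, hj3⟩ := hx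
      have e1 : p ^ j = p ^ (j - 1) * p := by
        rw [← pow_succ]
        congr 1
        omega
      have hj : 2 ≤ j := by
        by_contra hcon
        have e1 : j = 1 := by omega
        subst e1
        simp only [pow_one, Nat.sub_self, pow_zero] at hj2 hj3
        have e2 : p = x := by omega
        subst e2
        have h2 : 2 ∣ p := by omega
        have := (Nat.prime_dvd_prime_iff_eq Nat.prime_two hp).1 h2
        omega
      have h3 : p ^ (j - 1) * 3 ≤ p ^ j := by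
        rw [e1]
        exact Nat.mul_le_mul_left _ hp3
      refine ⟨j, hj, ?_, ?_, hj2, hj3⟩
      · rw [pow_succ]
        omega
      · rw [pow_succ, pow_succ]
        omega
    obtain ⟨j, hj1, hj2, hj3, hj4, hj5⟩ := key k hk
    have hI : Iw p b := ⟨j, hj1, hj2, hj3⟩
    rw [if_pos hI]
    have hsub : X p b ⊆ (Finset.Ico (p ^ j) (p ^ j + p ^ (j - 1))).filter (fun k => k % 30 = 24) := by
      intro x hx
      obtain ⟨i, hi1, hi2, hi3, hi4, hi5⟩ := key x hx
      have hij : i = j := by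
        rcases Nat.lt_trichotomy i j with h | h | h
        · exfalso
          have h1 : p ^ (i + 1) ≤ p ^ j := Nat.pow_le_pow_right hp.pos h
          have h2 : p ^ i * 2 ≤ p ^ (i + 1) := by
            rw [pow_succ]
            exact Nat.mul_le_mul_left _ hp.two_le
          have h3 : (2 : ℕ) ^ (b + 2) = 2 ^ (b + 1) * 2 := by ring
          omega
        · exact h
        · exfalso
          have h1 : p ^ (j + 1) ≤ p ^ i := Nat.pow_le_pow_right hp.pos h
          have h2 : p ^ j * 2 ≤ p ^ (j + 1) := by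
            rw [pow_succ]
            exact Nat.mul_le_mul_left _ hp.two_le
          have h3 : (2 : ℕ) ^ (b + 2) = 2 ^ (b + 1) * 2 := by ring
          omega
      subst hij
      rw [Finset.mem_filter, Finset.mem_Ico]
      rw [X, Finset.mem_filter, AP, Finset.mem_filter] at hx
      exact ⟨⟨hi4, hi5⟩, hx.1.2⟩
    have h1 : ((X p b).card : ℝ) ≤ ((p ^ (j - 1) : ℕ) : ℝ) / 30 + 1 := by
      refine le_trans ?_ (ap_upper (p ^ j) (p ^ (j - 1)))
      exact_mod_cast Finset.card_le_card hsub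
    have h2 : ((p ^ (j - 1) : ℕ) : ℝ) ≤ 4 * 2 ^ b / p := by
      rw [le_div_iff₀ hp0]
      have e1 : p ^ (j - 1) * p = p ^ j := by
        rw [← pow_succ]
        congr 1
        omega
      have h3 : p ^ (j - 1) * p ≤ 4 * 2 ^ b := by
        rw [e1]
        have h3 : (2 : ℕ) ^ (b + 2) = 4 * 2 ^ b := by ring
        omega
      exact_mod_cast h3
    have h2b : (0 : ℝ) < 2 ^ b := by positivity
    calc ((X p b).card : ℝ) * (30 / 2 ^ b) ≤ ((4 * 2 ^ b / p) / 30 + 1) * (30 / 2 ^ b) := by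
          gcongr
          linarith
      _ = 4 / (p : ℝ) + 30 / 2 ^ b := by
          field_simp

lemma Iw_count {p : ℕ} (hp3 : 3 ≤ p) (B : ℕ) :
    (((Finset.range B).filter (fun b => Iw p b)).card : ℝ) ≤
      (B + 1) * Real.log 2 / Real.log p := by
  have hlp := log_ge_one hp3
  have hp' : (3 : ℝ) ≤ p := by exact_mod_cast hp3
  have h2 : 0 < Real.log 2 := Real.log_pos (by norm_num)
  obtain ⟨J, hJ⟩ : ∃ J, J = ⌊(B + 1) * Real.log 2 / Real.log p⌋₊ := ⟨_, rfl⟩
  have hsub : (Finset.range B).filter (fun b => Iw p b) ⊆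
      (Finset.Icc 1 J).image (fun j => Nat.log 2 (p ^ j) - 1) := by
    intro b hb
    rw [Finset.mem_filter, Finset.mem_range] at hb
    obtain ⟨hb1, j, hj1, hj2, hj3⟩ := hb
    rw [Finset.mem_image]
    refine ⟨j, ?_, ?_⟩
    · rw [Finset.mem_Icc]
      refine ⟨by omega, ?_⟩
      rw [hJ]
      apply Nat.le_floor
      rw [le_div_iff₀ (by linarith)]
      have h3 : ((p : ℝ) ^ j) < 2 ^ (b + 2) := by exact_mod_cast hj3
      have h4 := Real.log_lt_log (by positivity) h3
      rw [Real.log_pow, Real.log_pow] at h4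
      have h5 : ((b + 2 : ℕ) : ℝ) ≤ B + 1 := by
        have : b + 2 ≤ B + 1 := by omega
        exact_mod_cast this
      nlinarith
    · have h3 : Nat.log 2 (p ^ j) = b + 1 := by
        rw [Nat.log_eq_iff (Or.inl (by omega))]
        exact ⟨hj2.le, hj3⟩
      simp only [h3]
      omega
  calc (((Finset.range B).filter (fun b => Iw p b)).card : ℝ)
      ≤ ((((Finset.Icc 1 J).image (fun j => Nat.log 2 (p ^ j) - 1)).card : ℕ) : ℝ) := by
        exact_mod_cast Finset.card_le_card hsub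
    _ ≤ ((Finset.Icc 1 J).card : ℝ) := by exact_mod_cast Finset.card_image_le
    _ = J := by
        rw [Nat.card_Icc]
        norm_num
    _ ≤ (B + 1) * Real.log 2 / Real.log p := by
        rw [hJ]
        apply Nat.floor_le
        positivity

end Pool.Agent.Q58.WCS2
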