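import Mathlib
import Pool.Agent.Q58.WCS2.Count

/-!
# Many numbers do not begin with `10` in any prime base
-/

set_option autoImplicit false

namespace Pool.Agent.Q58.WCS2

open scoped Classical

lemma geo (N M : ℕ) : ∑ m ∈ Finset.range M, (30 : ℝ) / 2 ^ (N + m) ≤ 60 / 2 ^ N := by
  have h : ∑ m ∈ Finset.range M, (30 : ℝ) / 2 ^ (N + m) = 60 / 2 ^ N - 60 / 2 ^ (N + M) := by
    induction M with
    | zero => simp
    | succ M ih =>
      rw [Finset.sum_range_succ, ih, ← Nat.add_assoc, pow_succ]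
      field_simp
      ring
  rw [h]
  have : (0 : ℝ) ≤ 60 / 2 ^ (N + M) := by positivity
  linarith

lemma geo2 (N M : ℕ) : ∑ m ∈ Finset.range M, ((3 : ℝ) / 4) ^ (N + m) ≤ 4 := by
  have h : ∑ m ∈ Finset.range M, ((3 : ℝ) / 4) ^ (N + m) =
      4 * (3 / 4) ^ N - 4 * (3 / 4) ^ (N + M) := by
    induction M with
    | zero => simp
    | succ M ih =>
      rw [Finset.sum_range_succ, ih, ← Nat.add_assoc, pow_succ]
      ring
  rw [h]
  have h1 : (0 : ℝ) ≤ 4 * (3 / 4) ^ (N + M) := by positivity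
  have h2 : ((3 : ℝ) / 4) ^ N ≤ 1 := pow_le_one₀ (by norm_num) (by norm_num)
  linarith

lemma half_pow (b : ℕ) : (2 : ℝ) ^ (b / 2) ≤ (3 / 2) ^ b := by
  have h1 : ((2 : ℝ) ^ (b / 2)) ^ 2 ≤ ((3 / 2) ^ b) ^ 2 := by
    rw [← pow_mul, ← pow_mul, Nat.mul_comm b 2, pow_mul (3 / 2 : ℝ) 2 b]
    calc (2 : ℝ) ^ (b / 2 * 2) ≤ 2 ^ b := pow_le_pow_right₀ (by norm_num) (by omega)
      _ ≤ ((3 / 2 : ℝ) ^ 2) ^ b := pow_le_pow_left₀ (by norm_num) (by norm_num) b
  exact le_of_sq_le_sq h1 (by positivity)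

/-- The contribution of a fixed prime. -/
lemma small_prime {p : ℕ} (hp : p.Prime) (hp3 : 3 ≤ p) (N : ℕ) {τ : ℝ} (hτ : 0 < τ) :
    ∃ K : ℝ, 0 ≤ K ∧ ∀ M : ℕ, ∑ m ∈ Finset.range M, ((X p (N + m)).card : ℝ) * (30 / 2 ^ (N + m)) ≤
      (ell p + 1 / 2 ^ N + τ) * M + K := by
  obtain ⟨K, hK0, hK⟩ := NB_count hp hp3 N hτ
  refine ⟨K + 60, by positivity, ?_⟩
  intro M
  have h2N : (0 : ℝ) < 2 ^ N := by positivity
  have h1 : ∀ m ∈ Finset.range M, ((X p (N + m)).card : ℝ) * (30 / 2 ^ (N + m)) ≤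
      ∑ k ∈ Finset.Ico (3 * 2 ^ N) (4 * 2 ^ N),
        ((if NB p k m then (1 / (2 : ℝ) ^ N) else 0) + 30 / 2 ^ (N + m)) := by
    intro m _
    have h2 := X_card p N m
    calc ((X p (N + m)).card : ℝ) * (30 / 2 ^ (N + m)) ≤
        (∑ k ∈ Finset.Ico (3 * 2 ^ N) (4 * 2 ^ N), if NB p k m then ((2 : ℝ) ^ m / 30 + 1) else 0) *
          (30 / 2 ^ (N + m)) := by gcongr
      _ = ∑ k ∈ Finset.Ico (3 * 2 ^ N) (4 * 2 ^ N), (if NB p k m then ((2 : ℝ) ^ m / 30 + 1) else 0) *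
          (30 / 2 ^ (N + m)) := by rw [Finset.sum_mul]
      _ ≤ _ := by
        apply Finset.sum_le_sum
        intro k _
        split_ifs
        · apply le_of_eq
          rw [pow_add]
          field_simp
        · rw [zero_mul]
          positivity
  calc ∑ m ∈ Finset.range M, ((X p (N + m)).card : ℝ) * (30 / 2 ^ (N + m))
      ≤ ∑ m ∈ Finset.range M, ∑ k ∈ Finset.Ico (3 * 2 ^ N) (4 * 2 ^ N),
        ((if NB p k m then (1 / (2 : ℝ) ^ N) else 0) + 30 / 2 ^ (N + m)) := Finset.sum_le_sum h1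
    _ = ∑ k ∈ Finset.Ico (3 * 2 ^ N) (4 * 2 ^ N), ∑ m ∈ Finset.range M,
        ((if NB p k m then (1 / (2 : ℝ) ^ N) else 0) + 30 / 2 ^ (N + m)) := Finset.sum_comm
    _ ≤ ∑ k ∈ Finset.Ico (3 * 2 ^ N) (4 * 2 ^ N),
        (((ell p + 1 / 2 ^ N + τ) * M + K) * (1 / 2 ^ N) + 60 / 2 ^ N) := by
        apply Finset.sum_le_sum
        intro k hk
        rw [Finset.mem_Ico] at hk
        rw [Finset.sum_add_distrib, ← Finset.sum_filter, Finset.sum_const, nsmul_eq_mul]
        have h3 := hK k hk.1 M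
        have h4 := geo N M
        apply add_le_add _ h4
        gcongr
    _ = (ell p + 1 / 2 ^ N + τ) * M + (K + 60) := by
        rw [Finset.sum_const, Nat.card_Ico, nsmul_eq_mul]
        have h5 : 4 * 2 ^ N - 3 * 2 ^ N = 2 ^ N := by omega
        rw [h5]
        push_cast
        field_simp
        ring

/-- The contribution of the large primes. -/
lemma large_primes {Y N : ℕ} (hY : 2 ≤ Y) (hN : 3 ≤ N) (M : ℕ) :
    ∑ m ∈ Finset.range M, ∑ p ∈ (Finset.Ioc Y (2 ^ ((N + m) / 2 + 2))).filter Nat.Prime,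
      ((X p (N + m)).card : ℝ) * (30 / 2 ^ (N + m)) ≤
    4 * Real.log 2 * ((N + M : ℕ) + 1) *
      (Real.log 4 * (1 / Real.log Y + 1 / (Real.log Y) ^ 2)) + 480 := by
  have hlog2 : 0 < Real.log 2 := Real.log_pos (by norm_num)
  obtain ⟨Z, hZ⟩ : ∃ Z, Z = 2 ^ ((N + M) / 2 + 2) := ⟨_, rfl⟩
  have h1 : ∀ m ∈ Finset.range M,
      ∑ p ∈ (Finset.Ioc Y (2 ^ ((N + m) / 2 + 2))).filter Nat.Prime,
        ((X p (N + m)).card : ℝ) * (30 / 2 ^ (N + m)) ≤
      (∑ p ∈ (Finset.Ioc Y Z).filter Nat.Prime, if Iw p (N + m) then (4 / (p : ℝ)) else 0) +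
        120 * (3 / 4) ^ (N + m) := by
    intro m hm
    rw [Finset.mem_range] at hm
    have h2 : ∑ p ∈ (Finset.Ioc Y (2 ^ ((N + m) / 2 + 2))).filter Nat.Prime,
        ((X p (N + m)).card : ℝ) * (30 / 2 ^ (N + m)) ≤
        ∑ p ∈ (Finset.Ioc Y (2 ^ ((N + m) / 2 + 2))).filter Nat.Prime,
        ((if Iw p (N + m) then (4 / (p : ℝ)) else 0) + 30 / 2 ^ (N + m)) := by
      apply Finset.sum_le_sum
      intro p hp
      rw [Finset.mem_filter, Finset.mem_Ioc] at hp
      refine (X_large (by omega) hp.2 (by omega)).trans ?_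
      split_ifs
      · exact le_rfl
      · positivity
    refine h2.trans ?_
    rw [Finset.sum_add_distrib]
    apply add_le_add
    · apply Finset.sum_le_sum_of_subset_of_nonneg
      · intro p hp
        rw [Finset.mem_filter, Finset.mem_Ioc] at hp ⊢
        refine ⟨⟨hp.1.1, hp.1.2.trans ?_⟩, hp.2⟩
        rw [hZ]
        apply Nat.pow_le_pow_right (by norm_num)
        omega
      · intro p _ _
        split_ifs
        · positivity
        · exact le_rfl
    · rw [Finset.sum_const, nsmul_eq_mul]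
      have h3 : ((((Finset.Ioc Y (2 ^ ((N + m) / 2 + 2))).filter Nat.Prime).card : ℕ) : ℝ) ≤
          4 * (3 / 2) ^ (N + m) := by
        have h4 : ((Finset.Ioc Y (2 ^ ((N + m) / 2 + 2))).filter Nat.Prime).card ≤
            2 ^ ((N + m) / 2 + 2) := by
          refine (Finset.card_filter_le _ _).trans ?_
          rw [Nat.card_Ioc]
          exact Nat.sub_le _ _
        have h5 : ((((Finset.Ioc Y (2 ^ ((N + m) / 2 + 2))).filter Nat.Prime).card : ℕ) : ℝ) ≤
            2 ^ ((N + m) / 2 + 2) := by exact_mod_cast h4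
        have h6 := half_pow (N + m)
        have h7 : (2 : ℝ) ^ ((N + m) / 2 + 2) = 4 * 2 ^ ((N + m) / 2) := by
          rw [pow_add]
          ring
        rw [h7] at h5
        linarith
      calc ((((Finset.Ioc Y (2 ^ ((N + m) / 2 + 2))).filter Nat.Prime).card : ℕ) : ℝ) *
            (30 / 2 ^ (N + m)) ≤ (4 * (3 / 2) ^ (N + m)) * (30 / 2 ^ (N + m)) := by gcongr
        _ = 120 * (3 / 4) ^ (N + m) := by
          have h8 : ((3 : ℝ) / 4) ^ (N + m) = (3 / 2) ^ (N + m) / 2 ^ (N + m) := by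
            rw [← div_pow]
            norm_num
          rw [h8]
          ring
  have h2 : ∑ m ∈ Finset.range M, (∑ p ∈ (Finset.Ioc Y Z).filter Nat.Prime,
      if Iw p (N + m) then (4 / (p : ℝ)) else 0) ≤
      4 * Real.log 2 * ((N + M : ℕ) + 1) * tl Y Z := by
    rw [Finset.sum_comm, tl, Finset.mul_sum]
    apply Finset.sum_le_sum
    intro p hp
    rw [Finset.mem_filter, Finset.mem_Ioc] at hp
    have hp3 : 3 ≤ p := by omega
    have hp' : (3 : ℝ) ≤ p := by exact_mod_cast hp3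
    have hlp := log_ge_one hp3
    rw [← Finset.sum_filter, Finset.sum_const, nsmul_eq_mul]
    have h3 : ((((Finset.range M).filter (fun m => Iw p (N + m))).card : ℕ) : ℝ) ≤
        ((((Finset.range (N + M)).filter (fun b => Iw p b)).card : ℕ) : ℝ) := by
      have h4 : ((Finset.range M).filter (fun m => Iw p (N + m))).card ≤
          ((Finset.range (N + M)).filter (fun b => Iw p b)).card := by
        apply Finset.card_le_card_of_injOn (fun m => N + m)
        · intro m hm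
          rw [Finset.mem_coe, Finset.mem_filter, Finset.mem_range] at hm ⊢
          exact ⟨Nat.add_lt_add_left hm.1 N, hm.2⟩
        · intro a _ b _ hab
          simp only at hab
          omega
      exact_mod_cast h4
    have h5 := Iw_count hp3 (N + M)
    have h6 : ((((Finset.range M).filter (fun m => Iw p (N + m))).card : ℕ) : ℝ) ≤
        (((N + M : ℕ) : ℝ) + 1) * Real.log 2 / Real.log p := h3.trans h5
    calc ((((Finset.range M).filter (fun m => Iw p (N + m))).card : ℕ) : ℝ) * (4 / (p : ℝ))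
        ≤ ((((N + M : ℕ) : ℝ) + 1) * Real.log 2 / Real.log p) * (4 / (p : ℝ)) := by gcongr
      _ = 4 * Real.log 2 * (((N + M : ℕ) : ℝ) + 1) * (1 / ((p : ℝ) * Real.log p)) := by
        field_simp
  have h3 := geo2 N M
  have h4 := tl_le hY Z
  calc ∑ m ∈ Finset.range M, ∑ p ∈ (Finset.Ioc Y (2 ^ ((N + m) / 2 + 2))).filter Nat.Prime,
      ((X p (N + m)).card : ℝ) * (30 / 2 ^ (N + m))
      ≤ ∑ m ∈ Finset.range M, ((∑ p ∈ (Finset.Ioc Y Z).filter Nat.Prime,
        if Iw p (N + m) then (4 / (p : ℝ)) else 0) + 120 * (3 / 4) ^ (N + m)) :=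
        Finset.sum_le_sum h1
    _ = ∑ m ∈ Finset.range M, (∑ p ∈ (Finset.Ioc Y Z).filter Nat.Prime,
        if Iw p (N + m) then (4 / (p : ℝ)) else 0) +
        120 * ∑ m ∈ Finset.range M, (3 / 4) ^ (N + m) := by
        rw [Finset.sum_add_distrib, Finset.mul_sum]
    _ ≤ 4 * Real.log 2 * ((N + M : ℕ) + 1) * tl Y Z + 120 * 4 := by gcongr
    _ ≤ 4 * Real.log 2 * ((N + M : ℕ) + 1) *
      (Real.log 4 * (1 / Real.log Y + 1 / (Real.log Y) ^ 2)) + 480 := by
        have : (0 : ℝ) ≤ ((N + M : ℕ) : ℝ) := Nat.cast_nonneg _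
        have h5 : 4 * Real.log 2 * (((N + M : ℕ) : ℝ) + 1) * tl Y Z ≤
          4 * Real.log 2 * (((N + M : ℕ) : ℝ) + 1) *
            (Real.log 4 * (1 / Real.log Y + 1 / (Real.log Y) ^ 2)) := by gcongr
        linarith

/-- Covering of the window. -/
lemma ap_cover {Y b : ℕ} (hb : 3 ≤ b) : ((AP b).card : ℝ) ≤ (G b).card +
    ∑ p ∈ (Finset.Ioc 2 Y).filter Nat.Prime, ((X p b).card : ℝ) +
    ∑ p ∈ (Finset.Ioc Y (2 ^ (b / 2 + 2))).filter Nat.Prime, ((X p b).card : ℝ) := by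
  have hsub : AP b ⊆ G b ∪ (((Finset.Ioc 2 Y).filter Nat.Prime).biUnion (fun p => X p b) ∪
      ((Finset.Ioc Y (2 ^ (b / 2 + 2))).filter Nat.Prime).biUnion (fun p => X p b)) := by
    intro k hk
    by_cases hg : Good k
    · exact Finset.mem_union_left _ (Finset.mem_filter.2 ⟨hk, hg⟩)
    · obtain ⟨p, hp, hp3, hp4, hB⟩ := cover hb hk hg
      have hX : k ∈ X p b := Finset.mem_filter.2 ⟨hk, hB⟩
      apply Finset.mem_union_right
      rcases Nat.lt_or_ge Y p with h | h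
      · apply Finset.mem_union_right
        rw [Finset.mem_biUnion]
        exact ⟨p, Finset.mem_filter.2 ⟨Finset.mem_Ioc.2 ⟨h, by omega⟩, hp⟩, hX⟩
      · apply Finset.mem_union_left
        rw [Finset.mem_biUnion]
        exact ⟨p, Finset.mem_filter.2 ⟨Finset.mem_Ioc.2 ⟨by omega, h⟩, hp⟩, hX⟩
  have h1 := (Finset.card_le_card hsub).trans (Finset.card_union_le _ _)
  have h2 := Finset.card_union_le (((Finset.Ioc 2 Y).filter Nat.Prime).biUnion (fun p => X p b))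
      (((Finset.Ioc Y (2 ^ (b / 2 + 2))).filter Nat.Prime).biUnion (fun p => X p b))
  have h3 := Finset.card_biUnion_le (s := (Finset.Ioc 2 Y).filter Nat.Prime) (t := fun p => X p b)
  have h4 := Finset.card_biUnion_le (s := (Finset.Ioc Y (2 ^ (b / 2 + 2))).filter Nat.Prime)
    (t := fun p => X p b)
  have h5 : (AP b).card ≤ (G b).card + ∑ p ∈ (Finset.Ioc 2 Y).filter Nat.Prime, (X p b).card +
    ∑ p ∈ (Finset.Ioc Y (2 ^ (b / 2 + 2))).filter Nat.Prime, (X p b).card := by omega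
  exact_mod_cast h5

/-- On average, a positive proportion of the windows is good. -/
theorem main_count : ∃ N : ℕ, 3 ≤ N ∧ ∃ K : ℝ, 0 ≤ K ∧ ∀ M : ℕ,
    0.02 * M - K ≤ ∑ m ∈ Finset.range M, ((G (N + m)).card : ℝ) * (30 / 2 ^ (N + m)) := by
  -- the threshold
  obtain ⟨Y, hY⟩ := exists_nat_gt (Real.exp 1000)
  have hY0 : (0 : ℝ) < Y := (Real.exp_pos _).trans hY
  have hlY : 1000 ≤ Real.log Y := by
    rw [Real.le_log_iff_exp_le hY0]
    exact hY.le
  have hY2 : 2 ≤ Y := by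
    have h1 : (1000 : ℝ) + 1 ≤ Real.exp 1000 := Real.add_one_le_exp 1000
    have h2 : (2 : ℝ) ≤ Y := by linarith
    exact_mod_cast h2
  obtain ⟨N0, hN0⟩ := exists_nat_gt (100 * (Y : ℝ))
  obtain ⟨N, hN⟩ : ∃ N, N = N0 + 3 := ⟨_, rfl⟩
  have hN3 : 3 ≤ N := by omega
  have h2N : 100 * (Y : ℝ) ≤ 2 ^ N := by
    have h1 : (N0 : ℝ) < 2 ^ N0 := by exact_mod_cast Nat.lt_two_pow_self
    have h2 : (2 : ℝ) ^ N0 ≤ 2 ^ N := pow_le_pow_right₀ (by norm_num) (by omega)
    linarith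
  obtain ⟨τ, hτd⟩ : ∃ τ : ℝ, τ = 0.01 / Y := ⟨_, rfl⟩
  have hτ : 0 < τ := by
    rw [hτd]
    positivity
  have hex : ∀ p : ℕ, ∃ K : ℝ, 0 ≤ K ∧ (p.Prime → 3 ≤ p → ∀ M : ℕ,
      ∑ m ∈ Finset.range M, ((X p (N + m)).card : ℝ) * (30 / 2 ^ (N + m)) ≤
      (ell p + 1 / 2 ^ N + τ) * M + K) := by
    intro p
    by_cases hp : p.Prime ∧ 3 ≤ p
    · obtain ⟨K, hK0, hK⟩ := small_prime hp.1 hp.2 N hτ
      exact ⟨K, hK0, fun _ _ => hK⟩
    · exact ⟨0, le_rfl, fun h1 h2 => (hp ⟨h1, h2⟩).elim⟩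
  choose K hK0 hK using hex
  obtain ⟨S, hS⟩ : ∃ S : ℝ, S = ∑ p ∈ (Finset.Ioc 2 Y).filter Nat.Prime, K p := ⟨_, rfl⟩
  have hS0 : 0 ≤ S := by
    rw [hS]
    exact Finset.sum_nonneg (fun p _ => hK0 p)
  refine ⟨N, hN3, 60 + S + 480 + 0.01 * (N + 1), by positivity, ?_⟩
  intro M
  have hlog2 : 0 < Real.log 2 := Real.log_pos (by norm_num)
  have l2 := Real.log_two_lt_d9
  -- lower bound for the windows
  have hA : (M : ℝ) - 60 ≤ ∑ m ∈ Finset.range M, ((AP (N + m)).card : ℝ) * (30 / 2 ^ (N + m)) := by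
    have h1 : ∑ m ∈ Finset.range M, ((1 : ℝ) - 30 / 2 ^ (N + m)) ≤
        ∑ m ∈ Finset.range M, ((AP (N + m)).card : ℝ) * (30 / 2 ^ (N + m)) := by
      apply Finset.sum_le_sum
      intro m _
      have h2 := ap_lower (N + m)
      have h3 : (0 : ℝ) < 2 ^ (N + m) := by positivity
      calc (1 : ℝ) - 30 / 2 ^ (N + m) = (2 ^ (N + m) / 30 - 1) * (30 / 2 ^ (N + m)) := by
            field_simp
        _ ≤ _ := by gcongr
    rw [Finset.sum_sub_distrib, Finset.sum_const, nsmul_eq_mul, Finset.card_range, mul_one] at h1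
    have h2 := geo N M
    have h3 : (60 : ℝ) / 2 ^ N ≤ 60 := by
      apply div_le_self (by norm_num)
      exact one_le_pow₀ (by norm_num)
    linarith
  -- the covering
  have hB : ∑ m ∈ Finset.range M, ((AP (N + m)).card : ℝ) * (30 / 2 ^ (N + m)) ≤
      ∑ m ∈ Finset.range M, ((G (N + m)).card : ℝ) * (30 / 2 ^ (N + m)) +
      ∑ p ∈ (Finset.Ioc 2 Y).filter Nat.Prime, ∑ m ∈ Finset.range M,
        ((X p (N + m)).card : ℝ) * (30 / 2 ^ (N + m)) +
      ∑ m ∈ Finset.range M, ∑ p ∈ (Finset.Ioc Y (2 ^ ((N + m) / 2 + 2))).filter Nat.Prime,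
        ((X p (N + m)).card : ℝ) * (30 / 2 ^ (N + m)) := by
    rw [Finset.sum_comm (s := (Finset.Ioc 2 Y).filter Nat.Prime), ← Finset.sum_add_distrib,
      ← Finset.sum_add_distrib]
    apply Finset.sum_le_sum
    intro m _
    have h1 := ap_cover (Y := Y) (b := N + m) (by omega)
    rw [← Finset.sum_mul, ← Finset.sum_mul, ← add_mul, ← add_mul]
    gcongr
  -- small primes
  have hC : ∑ p ∈ (Finset.Ioc 2 Y).filter Nat.Prime, ∑ m ∈ Finset.range M,
        ((X p (N + m)).card : ℝ) * (30 / 2 ^ (N + m)) ≤ 0.97 * M + S := by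
    have h1 : ∑ p ∈ (Finset.Ioc 2 Y).filter Nat.Prime, ∑ m ∈ Finset.range M,
        ((X p (N + m)).card : ℝ) * (30 / 2 ^ (N + m)) ≤
        ∑ p ∈ (Finset.Ioc 2 Y).filter Nat.Prime, ((ell p + 1 / 2 ^ N + τ) * M + K p) := by
      apply Finset.sum_le_sum
      intro p hp
      rw [Finset.mem_filter, Finset.mem_Ioc] at hp
      exact hK p hp.2 (by omega) M
    rw [Finset.sum_add_distrib, ← hS, ← Finset.sum_mul] at h1
    have h2 : ∑ p ∈ (Finset.Ioc 2 Y).filter Nat.Prime, (ell p + 1 / 2 ^ N + τ) ≤ 0.97 := by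
      have h3 : ∑ p ∈ (Finset.Ioc 2 Y).filter Nat.Prime, (ell p + 1 / 2 ^ N + τ) =
          ∑ p ∈ (Finset.Ioc 2 Y).filter Nat.Prime, ell p +
          (((Finset.Ioc 2 Y).filter Nat.Prime).card : ℝ) * (1 / 2 ^ N + τ) := by
        rw [← nsmul_eq_mul, ← Finset.sum_const, ← Finset.sum_add_distrib]
        apply Finset.sum_congr rfl
        intro p _
        ring
      rw [h3]
      have h4 := ell_sum Y
      have h5 : (((Finset.Ioc 2 Y).filter Nat.Prime).card : ℝ) ≤ Y := by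
        have h6 : ((Finset.Ioc 2 Y).filter Nat.Prime).card ≤ Y := by
          refine (Finset.card_filter_le _ _).trans ?_
          rw [Nat.card_Ioc]
          omega
        exact_mod_cast h6
      have h6 : (Y : ℝ) * (1 / 2 ^ N) ≤ 0.01 := by
        rw [mul_one_div, div_le_iff₀ (by positivity)]
        linarith
      have h7 : (Y : ℝ) * τ = 0.01 := by
        rw [hτd]
        field_simp
      have h8 : (((Finset.Ioc 2 Y).filter Nat.Prime).card : ℝ) * (1 / 2 ^ N + τ) ≤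
          Y * (1 / 2 ^ N + τ) := by gcongr
      linarith
    have h3 : (∑ p ∈ (Finset.Ioc 2 Y).filter Nat.Prime, (ell p + 1 / 2 ^ N + τ)) * M ≤ 0.97 * M := by
      gcongr
    linarith
  -- large primes
  have hD := large_primes hY2 hN3 M
  have hE : 4 * Real.log 2 * (((N + M : ℕ) : ℝ) + 1) *
      (Real.log 4 * (1 / Real.log Y + 1 / (Real.log Y) ^ 2)) ≤ 0.01 * (N + M + 1) := by
    have f4 : Real.log 4 = 2 * Real.log 2 := by
      have : (4 : ℝ) = 2 ^ 2 := by norm_num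
      rw [this, Real.log_pow]
      norm_num
    have h1 : 1 / Real.log Y ≤ 1 / 1000 := by
      apply one_div_le_one_div_of_le (by norm_num) hlY
    have h2 : 1 / (Real.log Y) ^ 2 ≤ 1 / 1000 := by
      apply one_div_le_one_div_of_le (by norm_num)
      nlinarith
    have h3 : Real.log 4 * (1 / Real.log Y + 1 / (Real.log Y) ^ 2) ≤ 1.4 * (2 / 1000) := by
      have h4 : Real.log 4 ≤ 1.4 := by linarith
      have h5 : 0 < Real.log 4 := by linarith
      have h6 : 0 ≤ 1 / Real.log Y + 1 / (Real.log Y) ^ 2 := by positivity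
      calc Real.log 4 * (1 / Real.log Y + 1 / (Real.log Y) ^ 2) ≤
          1.4 * (1 / Real.log Y + 1 / (Real.log Y) ^ 2) := by gcongr
        _ ≤ 1.4 * (2 / 1000) := by linarith
    have h4 : (0 : ℝ) ≤ ((N + M : ℕ) : ℝ) + 1 := by positivity
    have h5 : 4 * Real.log 2 ≤ 2.8 := by linarith
    calc 4 * Real.log 2 * (((N + M : ℕ) : ℝ) + 1) *
        (Real.log 4 * (1 / Real.log Y + 1 / (Real.log Y) ^ 2)) ≤
        2.8 * (((N + M : ℕ) : ℝ) + 1) * (1.4 * (2 / 1000)) := by gcongr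
      _ ≤ 0.01 * (N + M + 1) := by
        push_cast
        have : (0 : ℝ) ≤ N + M + 1 := by positivity
        nlinarith
  linarith

end Pool.Agent.Q58.WCS2
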